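import Pool.Agent.H937R3.EllOne

/-!
# The Banach algebra `ℓ¹(S)` of a semigroup `S`
-/

open H937R3 Set Filter Topology
open scoped ENNReal

namespace Q214.SA

noncomputable section

variable {X : Type} [DecidableEq X]

/-- The bilinear product with given values on the point masses. -/
def mulL (m : X → X → L1 X) (hm : ∀ x y, ‖m x y‖ ≤ 1) : L1 X →L[ℂ] L1 X →L[ℂ] L1 X :=
  L1.lift (fun x => L1.lift (fun y => m x y) 1 (hm x)) 1
    (fun _ => L1.norm_lift_le _ _ zero_le_one _)

lemma mulL_delta_delta (m : X → X → L1 X) (hm : ∀ x y, ‖m x y‖ ≤ 1) (x y : X) :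
    mulL m hm (L1.delta x) (L1.delta y) = m x y := by
  simp [mulL]

lemma norm_mulL_le (m : X → X → L1 X) (hm : ∀ x y, ‖m x y‖ ≤ 1) (f g : L1 X) :
    ‖mulL m hm f g‖ ≤ ‖f‖ * ‖g‖ := by
  have h1 : ‖mulL m hm‖ ≤ 1 := L1.norm_lift_le _ _ zero_le_one _
  calc ‖mulL m hm f g‖ ≤ ‖mulL m hm‖ * ‖f‖ * ‖g‖ := ContinuousLinearMap.le_opNorm₂ _ _ _
    _ ≤ 1 * ‖f‖ * ‖g‖ := by gcongr
    _ = ‖f‖ * ‖g‖ := by ring

variable [Semigroup X]

/-- The product of point masses. -/
def mm (x y : X) : L1 X := L1.delta (x * y)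

omit [DecidableEq X] in
lemma norm_mm [DecidableEq X] (x y : X) : ‖(mm x y : L1 X)‖ ≤ 1 := by simp [mm]

/-- The convolution as a bilinear map. -/
def cL : L1 X →L[ℂ] L1 X →L[ℂ] L1 X := mulL mm norm_mm

lemma cL_delta_delta (x y : X) : cL (L1.delta x : L1 X) (L1.delta y) = L1.delta (x * y) :=
  mulL_delta_delta _ _ _ _

lemma cL_assoc (f g h : L1 X) : cL (cL f g) h = cL f (cL g h) := by
  let A : L1 X →L[ℂ] L1 X →L[ℂ] L1 X →L[ℂ] L1 X :=
    (ContinuousLinearMap.compL ℂ (L1 X) (L1 X) (L1 X →L[ℂ] L1 X) cL).comp cL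
  let B : L1 X →L[ℂ] L1 X →L[ℂ] L1 X →L[ℂ] L1 X :=
    ((ContinuousLinearMap.compL ℂ (L1 X) (L1 X →L[ℂ] L1 X)
      (L1 X →L[ℂ] L1 X)).flip cL).comp
      ((ContinuousLinearMap.compL ℂ (L1 X) (L1 X) (L1 X)).comp cL)
  have hA : ∀ f g h, A f g h = cL (cL f g) h := fun _ _ _ => rfl
  have hB : ∀ f g h, B f g h = cL f (cL g h) := fun _ _ _ => rfl
  have : A = B := by
    refine L1.clm_ext fun x => L1.clm_ext fun y => L1.clm_ext fun z => ?_
    rw [hA, hB, cL_delta_delta, cL_delta_delta, cL_delta_delta, cL_delta_delta, mul_assoc]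
  rw [← hA, ← hB, this]

lemma cL_apply (f g : L1 X) (z : X) :
    cL f g z = ∑' p : {p : X × X // p.1 * p.2 = z}, f p.1.1 * g p.1.2 := by
  let ev : L1 X →L[ℂ] ℂ := lp.evalCLM ℂ (fun _ : X => ℂ) (p := 1) z
  have hev : ∀ h : L1 X, ev h = h z := fun h => rfl
  have h1 : ∀ x : X, ev (L1.lift (fun y => mm x y) 1 (norm_mm x) g) =
      ∑' y, g y * (if x * y = z then 1 else 0) := by
    intro x
    rw [L1.lift_apply, ev.map_tsum (L1.summable_lift _ 1 (norm_mm x) g)]
    refine tsum_congr fun y => ?_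
    rw [map_smul, smul_eq_mul, hev]
    congr 1
    simp only [mm, L1.delta_apply, eq_comm]
  have h2 : cL f g z = ∑' x, f x * ∑' y, g y * (if x * y = z then 1 else 0) := by
    rw [← hev, cL, mulL, L1.lift_apply]
    have hs := L1.summable_lift (G := X) (fun x => L1.lift (fun y => mm x y) 1 (norm_mm x)) 1
      (fun _ => L1.norm_lift_le _ _ zero_le_one _) f
    have h3 : ((∑' x, f x • L1.lift (fun y => mm x y) 1 (norm_mm x)) : L1 X →L[ℂ] L1 X) g
        = ∑' x, f x • L1.lift (fun y => mm x y) 1 (norm_mm x) g :=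
      (ContinuousLinearMap.apply ℂ (L1 X) g).map_tsum hs
    rw [h3]
    have hs2 : Summable (fun x => f x • L1.lift (fun y => mm x y) 1 (norm_mm x) g) :=
      hs.map (ContinuousLinearMap.apply ℂ (L1 X) g)
        (ContinuousLinearMap.apply ℂ (L1 X) g).continuous
    rw [ev.map_tsum hs2]
    refine tsum_congr fun x => ?_
    rw [map_smul, h1, smul_eq_mul]
  rw [h2]
  have hsum : Summable (fun p : X × X => f p.1 * (g p.2 * (if p.1 * p.2 = z then 1 else 0))) := by
    have h4 : Summable (fun p : X × X => ‖f p.1‖ * ‖g p.2‖) :=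
      f.summable_norm.mul_of_nonneg g.summable_norm (fun _ => norm_nonneg _)
        (fun _ => norm_nonneg _)
    refine Summable.of_norm_bounded h4 fun p => ?_
    rw [norm_mul, norm_mul]
    split_ifs <;> simp
    positivity
  have h5 : ∀ x, f x * ∑' y, g y * (if x * y = z then 1 else 0) =
      ∑' y, f x * (g y * (if x * y = z then 1 else 0)) := fun x => by rw [tsum_mul_left]
  simp_rw [h5]
  rw [← hsum.tsum_prod (f := fun p : X × X => f p.1 * (g p.2 * (if p.1 * p.2 = z then 1 else 0)))]
  have h6 := tsum_subtype {p : X × X | p.1 * p.2 = z} (fun p => f p.1 * g p.2)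
  refine Eq.trans ?_ h6.symm
  refine tsum_congr fun p => ?_
  by_cases hp : p.1 * p.2 = z
  · rw [indicator_of_mem (show p ∈ {p : X × X | p.1 * p.2 = z} from hp), if_pos hp, mul_one]
  · rw [indicator_of_notMem (show p ∉ {p : X × X | p.1 * p.2 = z} from hp), if_neg hp, mul_zero,
      mul_zero]

omit [DecidableEq X] in
lemma conv_mem (f g : L1 X) :
    (fun z => ∑' p : {p : X × X // p.1 * p.2 = z}, f p.1.1 * g p.1.2) ∈ lp (fun _ : X => ℂ) 1 := by
  classical
  have : (fun z => ∑' p : {p : X × X // p.1 * p.2 = z}, f p.1.1 * g p.1.2) = ⇑(cL f g) :=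
    funext fun z => (cL_apply f g z).symm
  rw [this]
  exact (cL f g).2

end

end Q214.SA

namespace Q214

/-- The Banach algebra `ℓ¹(S)` of a semigroup: the Banach space `lp (fun _ : S => ℂ) 1` of all
absolutely summable functions on `S`, with convolution. -/
def EllOneS (S : Type) : Type := lp (fun _ : S => ℂ) 1

namespace EllOneS

noncomputable section

/-- The convolution product: `(f * g)(z) = ∑ f(x) g(y)`, over all pairs with `x y = z`. -/
def conv {S : Type} [Semigroup S] (f g : lp (fun _ : S => ℂ) 1) : lp (fun _ : S => ℂ) 1 :=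
  ⟨fun z => ∑' p : {p : S × S // p.1 * p.2 = z}, f p.1.1 * g p.1.2, SA.conv_mem f g⟩

variable {S : Type}

/-- The Banach space structure of `ℓ¹(S)`. -/
@[reducible] def preNACG (S : Type) : NormedAddCommGroup (EllOneS S) :=
  lp.normedAddCommGroup (E := fun _ : S => ℂ) (p := 1)

variable [Semigroup S]

lemma conv_eq [DecidableEq S] (f g : lp (fun _ : S => ℂ) 1) : conv f g = SA.cL f g := by
  apply Subtype.ext
  funext z
  exact (SA.cL_apply f g z).symm

open Classical in
lemma conv_add' (f g h : lp (fun _ : S => ℂ) 1) : conv f (g + h) = conv f g + conv f h := by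
  simp only [conv_eq, map_add]

open Classical in
lemma add_conv' (f g h : lp (fun _ : S => ℂ) 1) : conv (f + g) h = conv f h + conv g h := by
  simp only [conv_eq, map_add, _root_.add_apply]

open Classical in
lemma zero_conv' (f : lp (fun _ : S => ℂ) 1) : conv 0 f = 0 := by
  simp only [conv_eq, map_zero, _root_.zero_apply]

open Classical in
lemma conv_zero' (f : lp (fun _ : S => ℂ) 1) : conv f 0 = 0 := by
  simp only [conv_eq, map_zero]

open Classical in
lemma conv_assoc' (f g h : lp (fun _ : S => ℂ) 1) : conv (conv f g) h = conv f (conv g h) := by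
  simp only [conv_eq, SA.cL_assoc]

open Classical in
lemma norm_conv_le' (f g : lp (fun _ : S => ℂ) 1) : ‖conv f g‖ ≤ ‖f‖ * ‖g‖ := by
  rw [conv_eq]
  exact SA.norm_mulL_le _ _ _ _

open Classical in
lemma smul_conv' (c : ℂ) (f g : lp (fun _ : S => ℂ) 1) : conv (c • f) g = c • conv f g := by
  simp only [conv_eq, map_smul, _root_.smul_apply]

open Classical in
lemma conv_smul' (c : ℂ) (f g : lp (fun _ : S => ℂ) 1) : conv f (c • g) = c • conv f g := by
  simp only [conv_eq, map_smul]

/-- The product of `ℓ¹(S)` is convolution. -/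
instance instMul : Mul (EllOneS S) := ⟨conv⟩

/-- `ℓ¹(S)` is a ring without unit. -/
instance instRing : NonUnitalRing (EllOneS S) :=
  { (preNACG S).toAddCommGroup, (instMul : Mul (EllOneS S)) with
    left_distrib := conv_add'
    right_distrib := add_conv'
    zero_mul := zero_conv'
    mul_zero := conv_zero'
    mul_assoc := conv_assoc' }

/-- `ℓ¹(S)` is a normed ring. -/
instance instNormedRing : NonUnitalNormedRing (EllOneS S) :=
  { preNACG S, (instRing : NonUnitalRing (EllOneS S)) with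
    norm_mul_le := norm_conv_le' }

instance instModule : Module ℂ (EllOneS S) :=
  (NormedSpace.toModule : Module ℂ (lp (fun _ : S => ℂ) 1))

lemma norm_smul_le' (c : ℂ) (f : EllOneS S) : ‖c • f‖ ≤ ‖c‖ * ‖f‖ :=
  norm_smul_le (α := ℂ) (β := lp (fun _ : S => ℂ) 1) c f

instance instNormedSpace : NormedSpace ℂ (EllOneS S) where
  norm_smul_le := norm_smul_le'

instance instScalarTower : IsScalarTower ℂ (EllOneS S) (EllOneS S) where
  smul_assoc := smul_conv'

instance instSMulComm : SMulCommClass ℂ (EllOneS S) (EllOneS S) where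
  smul_comm := fun c f g => (conv_smul' c f g).symm

instance instComplete : CompleteSpace (EllOneS S) :=
  (inferInstance : CompleteSpace (lp (fun _ : S => ℂ) 1))

/-- The product of two elements. -/
lemma mul_def (f g : EllOneS S) : f * g = conv f g := rfl

end

end EllOneS

end Q214
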