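import Pool.Agent.Q214.SA.Alg

/-!
# Closed ideals of Banach algebras, the Wijsman topology, simplicity of quotients
-/

open Set Filter Topology

namespace Q214

/-- Two-sided ideals of an algebra: linear subspaces closed under multiplication by arbitrary
elements from the left and from the right. -/
def IsIdeal {P : Type} [NonUnitalNormedRing P] [NormedSpace ℂ P] (J : Submodule ℂ P) : Prop :=
  ∀ a : P, ∀ x ∈ J, a * x ∈ J ∧ x * a ∈ J

/-- `Ideal(P)`: the set of all closed two-sided ideals of `P`. -/
def IdealSpace (P : Type) [NonUnitalNormedRing P] [NormedSpace ℂ P] : Type :=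
  {K : Submodule ℂ P // IsIdeal K ∧ IsClosed (K : Set P)}

/-- The Wijsman topology: the weakest topology for which `K ↦ d(x, K)` is continuous for all
`x ∈ P`. -/
noncomputable instance wijsman (P : Type) [NonUnitalNormedRing P] [NormedSpace ℂ P] :
    TopologicalSpace (IdealSpace P) :=
  ⨅ x : P, TopologicalSpace.induced (fun K => Metric.infDist x (K.1 : Set P)) inferInstance

/-- The quotient `P / K` is simple: for every nonzero element of `P / K` (the class of some
`x ∉ K`), all two-sided ideals of `P / K` which contain it (they correspond to the two-sided ideals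
`J` of `P` which contain `K` and `x`) are dense. -/
def QuotientSimple {P : Type} [NonUnitalNormedRing P] [NormedSpace ℂ P] (K : Submodule ℂ P) :
    Prop :=
  ∀ x ∉ K, ∀ J : Submodule ℂ P, IsIdeal J → K ≤ J → x ∈ J → Dense (J : Set P)

/-- `Simple(P)`: the closed two-sided ideals `K` for which `P / K` is simple. -/
def Simple (P : Type) [NonUnitalNormedRing P] [NormedSpace ℂ P] : Set (IdealSpace P) :=
  {K | QuotientSimple K.1}

/-- `P` is a separable quotient generator: `P` is a separable Banach algebra, and every separable
Banach algebra `B` is the image of `P` under a continuous surjective homomorphism `φ` of algebras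
(so `B` is isomorphic to `P / ker φ`, by the open mapping theorem). -/
def IsSeparableQuotientGenerator (P : Type) [NonUnitalNormedRing P] [NormedSpace ℂ P] : Prop :=
  CompleteSpace P ∧ TopologicalSpace.SeparableSpace P ∧
  ∀ (B : Type) [NonUnitalNormedRing B] [NormedSpace ℂ B] [IsScalarTower ℂ B B]
    [SMulCommClass ℂ B B] [CompleteSpace B] [TopologicalSpace.SeparableSpace B],
    ∃ φ : P →ₙₐ[ℂ] B, Continuous φ ∧ Function.Surjective φ

lemma continuous_infDist {P : Type} [NonUnitalNormedRing P] [NormedSpace ℂ P] (x : P) :
    Continuous (fun K : IdealSpace P => Metric.infDist x (K.1 : Set P)) :=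
  continuous_iInf_dom (i := x) continuous_induced_dom

end Q214
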