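import Pool.Agent.Q214.SA.Map

/-!
# `ℓ¹` of the free semigroup on countably many generators is a separable quotient generator
-/

open H937R3 Set Filter Topology TopologicalSpace
open scoped ENNReal

namespace Q214.SA

noncomputable section

set_option linter.unusedSectionVars false

lemma countable_W : Countable W := by
  have h : Function.Injective (fun w : W => (w.head, w.tail)) := by
    rintro ⟨a, l⟩ ⟨b, m⟩ h
    simp only [Prod.mk.injEq] at h
    rw [h.1, h.2]
  exact h.countable

open Classical in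
lemma separable_P : SeparableSpace (EllOneS W) := by
  have _ : Countable W := countable_W
  have h1 : IsSeparable (closure ((Submodule.span ℂ (range (fun w : W => (L1.delta w : L1 W))) :
      Submodule ℂ (L1 W)) : Set (L1 W))) :=
    ((countable_range _).isSeparable.span (R := ℂ)).closure
  have h2 : closure ((Submodule.span ℂ (range (fun w : W => (L1.delta w : L1 W))) :
      Submodule ℂ (L1 W)) : Set (L1 W)) = Set.univ := by
    apply eq_univ_of_forall
    intro f
    have h3 : L1.lift (fun w : W => (L1.delta w : L1 W)) 1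
        (fun w => (L1.norm_delta w).le) = ContinuousLinearMap.id ℂ (L1 W) := by
      refine L1.clm_ext fun w => ?_
      rw [L1.lift_delta]
      rfl
    have h4 : f = ∑' w, f w • (L1.delta w : L1 W) :=
      (congrArg (fun T : L1 W →L[ℂ] L1 W => T f) h3).symm
    have h5 : HasSum (fun w => f w • (L1.delta w : L1 W)) f := by
      have h6 := (L1.summable_lift (fun w : W => (L1.delta w : L1 W)) 1
        (fun w => (L1.norm_delta w).le) f).hasSum
      rwa [← h4] at h6
    refine mem_closure_of_tendsto h5 (Eventually.of_forall fun t => ?_)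
    exact Submodule.sum_mem _ fun w _ => Submodule.smul_mem _ _ (Submodule.subset_span ⟨w, rfl⟩)
  rw [h2] at h1
  exact isSeparable_univ_iff.1 h1

section

variable {B : Type} [NonUnitalNormedRing B] [NormedSpace ℂ B] [IsScalarTower ℂ B B]
  [SMulCommClass ℂ B B] [CompleteSpace B]

/-- The extension of a bounded family to words. -/
def wv (v : ℕ → B) : W →ₙ* B := FreeSemigroup.lift v

omit [NormedSpace ℂ B] [IsScalarTower ℂ B B] [SMulCommClass ℂ B B] [CompleteSpace B] in
lemma norm_wv (v : ℕ → B) (hv : ∀ n, ‖v n‖ ≤ 1) (w : W) : ‖wv v w‖ ≤ 1 := by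
  induction w using FreeSemigroup.recOnMul with
  | ih1 n =>
    rw [wv, FreeSemigroup.lift_of]
    exact hv n
  | ih2 x y hx hy =>
    rw [map_mul]
    calc ‖wv v (FreeSemigroup.of x) * wv v y‖ ≤ ‖wv v (FreeSemigroup.of x)‖ * ‖wv v y‖ :=
          norm_mul_le _ _
      _ ≤ 1 * 1 := by gcongr
      _ = 1 := one_mul 1

/-- The continuous linear extension. -/
def psi (v : ℕ → B) (hv : ∀ n, ‖v n‖ ≤ 1) : L1 W →L[ℂ] B :=
  L1.lift (fun w => wv v w) 1 (norm_wv v hv)

open Classical in
lemma psi_delta (v : ℕ → B) (hv : ∀ n, ‖v n‖ ≤ 1) (w : W) : psi v hv (L1.delta w) = wv v w := by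
  simp [psi]

open Classical in
lemma psi_conv (v : ℕ → B) (hv : ∀ n, ‖v n‖ ≤ 1) (f g : L1 W) :
    psi v hv (EllOneS.conv f g) = psi v hv f * psi v hv g := by
  rw [EllOneS.conv_eq]
  let M : B →L[ℂ] B →L[ℂ] B := ContinuousLinearMap.mul ℂ B
  let A : L1 W →L[ℂ] L1 W →L[ℂ] B :=
    (ContinuousLinearMap.compL ℂ (L1 W) (L1 W) B (psi v hv)).comp cL
  let D : L1 W →L[ℂ] L1 W →L[ℂ] B :=
    ((ContinuousLinearMap.compL ℂ (L1 W) B B).flip (psi v hv)).comp (M.comp (psi v hv))
  have hA : ∀ f g, A f g = psi v hv (cL f g) := fun _ _ => rfl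
  have hD : ∀ f g, D f g = psi v hv f * psi v hv g := fun _ _ => rfl
  have : A = D := by
    refine L1.clm_ext fun x => L1.clm_ext fun y => ?_
    rw [hA, hD, cL_delta_delta, psi_delta, psi_delta, psi_delta, map_mul]
  rw [← hA, ← hD, this]

/-- The homomorphism of algebras. -/
def homP (v : ℕ → B) (hv : ∀ n, ‖v n‖ ≤ 1) : EllOneS W →ₙₐ[ℂ] B where
  toFun := psi v hv
  map_smul' := fun c x => (psi v hv).map_smul c x
  map_zero' := (psi v hv).map_zero
  map_add' := fun x y => (psi v hv).map_add x y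
  map_mul' := psi_conv v hv

open Classical in
/-- If the values are dense in the open unit ball, the homomorphism is onto. -/
lemma surj_psi (v : ℕ → B) (hv : ∀ n, ‖v n‖ ≤ 1)
    (hd : ∀ b : B, ‖b‖ < 1 → ∃ n, ‖b - v n‖ < 1 / 2) : Function.Surjective (psi v hv) := by
  -- the unit ball
  have hball : ∀ b : B, ‖b‖ < 1 → ∃ x, psi v hv x = b := by
    intro b hb
    let R := {r : B // ‖r‖ < 1}
    let nx : R → ℕ := fun r => (hd r.1 r.2).choose
    have hnx : ∀ r : R, ‖r.1 - v (nx r)‖ < 1 / 2 := fun r => (hd r.1 r.2).choose_spec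
    let step : R → R := fun r => ⟨(2 : ℂ) • (r.1 - v (nx r)), by
      rw [norm_smul]
      have := hnx r
      have h2 : ‖(2 : ℂ)‖ = 2 := by simp
      rw [h2]
      linarith⟩
    let r : ℕ → R := fun k => Nat.rec ⟨b, hb⟩ (fun _ r => step r) k
    have hr0 : (r 0).1 = b := rfl
    have hrs : ∀ k, (r (k + 1)).1 = (2 : ℂ) • ((r k).1 - v (nx (r k))) := fun k => rfl
    let a : ℕ → L1 W := fun k => ((1 / 2 : ℂ) ^ k) • L1.delta (FreeSemigroup.of (nx (r k)))
    have hsum : Summable a := by
      apply Summable.of_norm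
      have : (fun k : ℕ => ‖a k‖) = fun k => (1 / 2 : ℝ) ^ k := by
        funext k
        show ‖((1 / 2 : ℂ) ^ k) • (L1.delta (FreeSemigroup.of (nx (r k))) : L1 W)‖ = _
        rw [norm_smul, L1.norm_delta, mul_one, norm_pow]
        norm_num
      rw [this]
      exact summable_geometric_of_lt_one (by norm_num) (by norm_num)
    have hpart : ∀ K : ℕ, b = ∑ k ∈ Finset.range K, psi v hv (a k) +
        ((1 / 2 : ℂ) ^ K) • (r K).1 := by
      intro K
      induction K with
      | zero => simp [hr0]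
      | succ K ih =>
        rw [Finset.sum_range_succ, hrs K, smul_smul]
        have h1 : psi v hv (a K) = ((1 / 2 : ℂ) ^ K) • v (nx (r K)) := by
          show psi v hv (((1 / 2 : ℂ) ^ K) • (L1.delta (FreeSemigroup.of (nx (r K))) : L1 W)) = _
          rw [map_smul, psi_delta, wv, FreeSemigroup.lift_of]
        rw [h1]
        have h2 : (1 / 2 : ℂ) ^ (K + 1) * 2 = (1 / 2 : ℂ) ^ K := by
          rw [pow_succ]
          ring
        rw [h2, smul_sub]
        conv_lhs => rw [ih]
        abel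
    refine ⟨∑' k, a k, ?_⟩
    have h1 : psi v hv (∑' k, a k) = ∑' k, psi v hv (a k) := (psi v hv).map_tsum hsum
    have h2 : Tendsto (fun K => ∑ k ∈ Finset.range K, psi v hv (a k)) atTop
        (𝓝 (psi v hv (∑' k, a k))) := by
      rw [h1]
      exact (hsum.map (psi v hv) (psi v hv).continuous).hasSum.tendsto_sum_nat
    have h3 : Tendsto (fun K => ∑ k ∈ Finset.range K, psi v hv (a k)) atTop (𝓝 b) := by
      have h4 : ∀ K, ∑ k ∈ Finset.range K, psi v hv (a k) = b - ((1 / 2 : ℂ) ^ K) • (r K).1 := by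
        intro K
        conv_rhs => rw [hpart K]
        abel
      simp_rw [h4]
      have h5 : Tendsto (fun K : ℕ => ((1 / 2 : ℂ) ^ K) • (r K).1) atTop (𝓝 0) := by
        apply squeeze_zero_norm (a := fun K : ℕ => (1 / 2 : ℝ) ^ K)
        · intro K
          rw [norm_smul, norm_pow]
          have h6 := (r K).2
          have h7 : ‖(1 / 2 : ℂ)‖ = 1 / 2 := by norm_num
          rw [h7]
          have h8 : (0 : ℝ) ≤ (1 / 2 : ℝ) ^ K := by positivity
          calc (1 / 2 : ℝ) ^ K * ‖(r K).1‖ ≤ (1 / 2 : ℝ) ^ K * 1 := by gcongr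
            _ = (1 / 2 : ℝ) ^ K := mul_one _
        · exact tendsto_pow_atTop_nhds_zero_of_lt_one (by norm_num) (by norm_num)
      have h6 := (tendsto_const_nhds (x := b)).sub h5
      rwa [sub_zero] at h6
    exact tendsto_nhds_unique h2 h3
  intro b
  obtain ⟨x, hx⟩ := hball (((‖b‖ + 1 : ℝ) : ℂ)⁻¹ • b) (by
    rw [norm_smul, norm_inv, Complex.norm_real, Real.norm_eq_abs,
      abs_of_pos (by positivity : (0 : ℝ) < ‖b‖ + 1), inv_mul_lt_one₀ (by positivity)]
    linarith)
  refine ⟨((‖b‖ + 1 : ℝ) : ℂ) • x, ?_⟩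
  rw [map_smul, hx, smul_smul, mul_inv_cancel₀, one_smul]
  have h1 : (‖b‖ + 1 : ℝ) ≠ 0 := by positivity
  exact_mod_cast h1

end

theorem generator_P : IsSeparableQuotientGenerator (EllOneS W) := by
  classical
  refine ⟨inferInstance, separable_P, ?_⟩
  intro B _ _ _ _ _ _
  obtain ⟨u, hu⟩ := exists_dense_seq B
  let v : ℕ → B := fun n => if ‖u n‖ ≤ 1 then u n else 0
  have hv : ∀ n, ‖v n‖ ≤ 1 := by
    intro n
    simp only [v]
    split_ifs with h
    · exact h
    · simp
  have hd : ∀ b : B, ‖b‖ < 1 → ∃ n, ‖b - v n‖ < 1 / 2 := by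
    intro b hb
    obtain ⟨n, hn⟩ := hu.exists_dist_lt b (lt_min (sub_pos.2 hb) (show (0 : ℝ) < 1 / 2 by norm_num))
    refine ⟨n, ?_⟩
    rw [dist_eq_norm, lt_min_iff] at hn
    have h1 : ‖u n‖ ≤ 1 := by
      have h2 : ‖u n‖ ≤ ‖b‖ + ‖b - u n‖ := by
        have h3 : u n = b - (b - u n) := by abel
        conv_lhs => rw [h3]
        exact norm_sub_le _ _
      linarith [hn.1]
    have h2 : v n = u n := if_pos h1
    rw [h2]
    exact hn.2
  exact ⟨homP v hv, (psi v hv).continuous, surj_psi v hv hd⟩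

end

end Q214.SA
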