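import Pool.Agent.Q214.SA.Defs

/-!
# A continuous family of ideals of `ℓ¹` of a free semigroup
-/

open H937R3 Set Filter Topology
open scoped ENNReal

namespace Q214.SA

noncomputable section

/-- The free semigroup on countably many generators. -/
abbrev W : Type := FreeSemigroup ℕ

/-- The Gram matrix. -/
def gr (j k : ℕ) : ℝ := if j = k then 1 / 2 else if k = j + 1 then -1 else 0

lemma abs_gr (j k : ℕ) : |gr j k| ≤ 1 := by
  unfold gr
  split_ifs <;> norm_num

/-- Scaled matrix units. -/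
structure T where
  /-- the factor -/
  c : ℝ
  /-- row -/
  i : ℕ
  /-- column -/
  j : ℕ

instance : Semigroup T where
  mul a b := ⟨a.c * b.c * gr a.j b.i, a.i, b.j⟩
  mul_assoc := by
    rintro ⟨c, i, j⟩ ⟨d, k, l⟩ ⟨e, m, n⟩
    show T.mk (c * d * gr j k * e * gr l m) i n = T.mk (c * (d * e * gr l m) * gr j k) i n
    congr 1
    ring

lemma mul_c (a b : T) : (a * b).c = a.c * b.c * gr a.j b.i := rfl
lemma mul_i (a b : T) : (a * b).i = a.i := rfl
lemma mul_j (a b : T) : (a * b).j = b.j := rfl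

/-- The number of ones below `p`. -/
def NN (z : ℕ → Bool) (p : ℕ) : ℕ := ((Finset.range p).filter (fun q => z q = true)).card

lemma NN_mono (z : ℕ → Bool) {p q : ℕ} (h : p ≤ q) : NN z p ≤ NN z q := by
  apply Finset.card_le_card
  apply Finset.filter_subset_filter
  exact Finset.range_subset_range.2 h

/-- An index is allowed if it is at most the number of ones. -/
def Al (z : ℕ → Bool) (i : ℕ) : Prop := ∃ p, i ≤ NN z p

/-- The images of the generators. -/
def gen (z : ℕ → Bool) (n : ℕ) : T :=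
  ⟨if max n.unpair.1.unpair.1 n.unpair.1.unpair.2 ≤ NN z n.unpair.2 then 1 else 0,
    n.unpair.1.unpair.1, n.unpair.1.unpair.2⟩

/-- The value of a word. -/
def val (z : ℕ → Bool) : W →ₙ* T := FreeSemigroup.lift (gen z)

lemma val_of (z : ℕ → Bool) (n : ℕ) : val z (FreeSemigroup.of n) = gen z n :=
  FreeSemigroup.lift_of _ _

lemma abs_val (z : ℕ → Bool) (w : W) : |(val z w).c| ≤ 1 := by
  induction w using FreeSemigroup.recOnMul with
  | ih1 n =>
    rw [val_of]
    simp only [gen]
    split_ifs <;> norm_num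
  | ih2 x y hx hy =>
    rw [map_mul, mul_c, abs_mul, abs_mul]
    have h1 := abs_gr (val z (FreeSemigroup.of x)).j (val z y).i
    have h2 := abs_nonneg (val z (FreeSemigroup.of x)).c
    have h3 := abs_nonneg (val z y).c
    have h4 := abs_nonneg (gr (val z (FreeSemigroup.of x)).j (val z y).i)
    calc |(val z (FreeSemigroup.of x)).c| * |(val z y).c| *
          |gr (val z (FreeSemigroup.of x)).j (val z y).i| ≤ 1 * 1 * 1 := by gcongr
      _ = 1 := by norm_num

lemma val_allowed (z : ℕ → Bool) (w : W) (h : (val z w).c ≠ 0) :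
    Al z (val z w).i ∧ Al z (val z w).j := by
  induction w using FreeSemigroup.recOnMul with
  | ih1 n =>
    rw [val_of] at h ⊢
    simp only [gen] at h ⊢
    split_ifs at h with h1
    · exact ⟨⟨_, (le_max_left _ _).trans h1⟩, ⟨_, (le_max_right _ _).trans h1⟩⟩
    · exact absurd rfl h
  | ih2 x y hx hy =>
    rw [map_mul] at h ⊢
    rw [mul_c] at h
    rw [mul_i, mul_j]
    have h1 : (val z (FreeSemigroup.of x)).c ≠ 0 := fun h' => h (by rw [h']; ring)
    have h2 : (val z y).c ≠ 0 := fun h' => h (by rw [h']; ring)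
    exact ⟨(hx h1).1, (hy h2).2⟩

/-- The embedding of the scaled matrix units. -/
def emb (t : T) : L1 (ℕ × ℕ) := (t.c : ℂ) • L1.delta (t.i, t.j)

lemma norm_emb (t : T) : ‖emb t‖ = |t.c| := by
  rw [emb, norm_smul, L1.norm_delta, mul_one, Complex.norm_real, Real.norm_eq_abs]

/-- The values of the product on pairs of matrix units. -/
def mB (x y : ℕ × ℕ) : L1 (ℕ × ℕ) := (gr x.2 y.1 : ℂ) • L1.delta (x.1, y.2)

lemma norm_mB (x y : ℕ × ℕ) : ‖mB x y‖ ≤ 1 := by
  rw [mB, norm_smul, L1.norm_delta, mul_one, Complex.norm_real, Real.norm_eq_abs]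
  exact abs_gr _ _

/-- The product of matrices `a G b`. -/
def cB : L1 (ℕ × ℕ) →L[ℂ] L1 (ℕ × ℕ) →L[ℂ] L1 (ℕ × ℕ) := mulL mB norm_mB

lemma cB_delta (x y : ℕ × ℕ) : cB (L1.delta x) (L1.delta y) = mB x y := mulL_delta_delta _ _ _ _

lemma cB_emb (s t : T) : cB (emb s) (emb t) = emb (s * t) := by
  simp only [emb, map_smul, _root_.smul_apply, cB_delta, mB, mul_c, mul_i, mul_j,
    Complex.ofReal_mul, smul_smul]
  congr 1
  ring

/-- The homomorphism to the algebra of matrices. -/
def phi (z : ℕ → Bool) : L1 W →L[ℂ] L1 (ℕ × ℕ) :=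
  L1.lift (fun w => emb (val z w)) 1 (fun w => by rw [norm_emb]; exact abs_val z w)

open Classical in
lemma phi_delta (z : ℕ → Bool) (w : W) : phi z (L1.delta w) = emb (val z w) := by
  simp [phi]

lemma norm_phi_le (z : ℕ → Bool) (x : L1 W) : ‖phi z x‖ ≤ ‖x‖ := by
  have h1 : ‖phi z‖ ≤ 1 := L1.norm_lift_le _ _ zero_le_one _
  calc ‖phi z x‖ ≤ ‖phi z‖ * ‖x‖ := (phi z).le_opNorm x
    _ ≤ 1 * ‖x‖ := by gcongr
    _ = ‖x‖ := one_mul _

open Classical in
lemma phi_conv (z : ℕ → Bool) (f g : L1 W) :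
    phi z (EllOneS.conv f g) = cB (phi z f) (phi z g) := by
  rw [EllOneS.conv_eq]
  let A : L1 W →L[ℂ] L1 W →L[ℂ] L1 (ℕ × ℕ) :=
    (ContinuousLinearMap.compL ℂ (L1 W) (L1 W) (L1 (ℕ × ℕ)) (phi z)).comp cL
  let B : L1 W →L[ℂ] L1 W →L[ℂ] L1 (ℕ × ℕ) :=
    ((ContinuousLinearMap.compL ℂ (L1 W) (L1 (ℕ × ℕ)) (L1 (ℕ × ℕ))).flip (phi z)).comp
      (cB.comp (phi z))
  have hA : ∀ f g, A f g = phi z (cL f g) := fun _ _ => rfl
  have hB : ∀ f g, B f g = cB (phi z f) (phi z g) := fun _ _ => rfl
  have : A = B := by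
    refine L1.clm_ext fun x => L1.clm_ext fun y => ?_
    rw [hA, hB, cL_delta_delta, phi_delta, phi_delta, phi_delta, cB_emb, map_mul]
  rw [← hA, ← hB, this]

/-- The homomorphism, on the Banach algebra. -/
def phiP (z : ℕ → Bool) : EllOneS W →L[ℂ] L1 (ℕ × ℕ) where
  toFun := phi z
  map_add' := fun a b => (phi z).map_add a b
  map_smul' := fun c a => (phi z).map_smul c a
  cont := (phi z).continuous

lemma phiP_apply (z : ℕ → Bool) (x : EllOneS W) : phiP z x = phi z x := rfl

/-- The ideal, as a subspace. -/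
def KS (z : ℕ → Bool) : Submodule ℂ (EllOneS W) := LinearMap.ker (phiP z).toLinearMap

lemma mem_KS {z : ℕ → Bool} {x : EllOneS W} : x ∈ KS z ↔ phiP z x = 0 := Iff.rfl

lemma phiP_mul (z : ℕ → Bool) (x y : EllOneS W) :
    phiP z (x * y) = cB (phiP z x) (phiP z y) := phi_conv z x y

lemma norm_phiP_le (z : ℕ → Bool) (x : EllOneS W) : ‖phiP z x‖ ≤ ‖x‖ := norm_phi_le z x

lemma isIdeal_KS (z : ℕ → Bool) : IsIdeal (KS z) := by
  intro a x hx
  rw [mem_KS] at hx
  constructor
  · rw [mem_KS, phiP_mul, hx, map_zero]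
  · rw [mem_KS, phiP_mul, hx, map_zero, _root_.zero_apply]

lemma isClosed_KS (z : ℕ → Bool) : IsClosed (KS z : Set (EllOneS W)) :=
  isClosed_eq (phiP z).continuous continuous_const

/-- The ideal. -/
def KK (z : ℕ → Bool) : IdealSpace (EllOneS W) := ⟨KS z, isIdeal_KS z, isClosed_KS z⟩

/-! ### The norm of the quotient -/

open Classical in
/-- The lift of a matrix unit. -/
def sgen (z : ℕ → Bool) (x : ℕ × ℕ) : L1 W :=
  if h : ∃ p, max x.1 x.2 ≤ NN z p then
    L1.delta (FreeSemigroup.of (Nat.pair (Nat.pair x.1 x.2) h.choose)) else 0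

open Classical in
lemma norm_sgen (z : ℕ → Bool) (x : ℕ × ℕ) : ‖sgen z x‖ ≤ 1 := by
  unfold sgen
  split_ifs
  · exact (L1.norm_delta _).le
  · simp

open Classical in
lemma phi_sgen (z : ℕ → Bool) (x : ℕ × ℕ) (h1 : Al z x.1) (h2 : Al z x.2) :
    phi z (sgen z x) = L1.delta x := by
  have h : ∃ p, max x.1 x.2 ≤ NN z p := by
    obtain ⟨p, hp⟩ := h1
    obtain ⟨q, hq⟩ := h2
    exact ⟨max p q, max_le (hp.trans (NN_mono z (le_max_left _ _)))
      (hq.trans (NN_mono z (le_max_right _ _)))⟩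
  unfold sgen
  rw [dif_pos h, phi_delta, val_of, emb]
  have h3 := h.choose_spec
  simp only [gen, Nat.unpair_pair, if_pos h3, Complex.ofReal_one, one_smul]

/-- The section. -/
def sec (z : ℕ → Bool) : L1 (ℕ × ℕ) →L[ℂ] L1 W := L1.lift (sgen z) 1 (norm_sgen z)

lemma norm_sec_le (z : ℕ → Bool) (x : L1 (ℕ × ℕ)) : ‖sec z x‖ ≤ ‖x‖ := by
  have h1 : ‖sec z‖ ≤ 1 := L1.norm_lift_le _ _ zero_le_one _
  calc ‖sec z x‖ ≤ ‖sec z‖ * ‖x‖ := (sec z).le_opNorm x
    _ ≤ 1 * ‖x‖ := by gcongr
    _ = ‖x‖ := one_mul _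

open Classical in
lemma phi_sec_phi (z : ℕ → Bool) (x : L1 W) : phi z (sec z (phi z x)) = phi z x := by
  have : (phi z).comp ((sec z).comp (phi z)) = phi z := by
    refine L1.clm_ext fun w => ?_
    show phi z (sec z (phi z (L1.delta w))) = phi z (L1.delta w)
    rw [phi_delta, emb, map_smul, map_smul]
    by_cases hc : (val z w).c = 0
    · rw [hc]
      simp
    · obtain ⟨h1, h2⟩ := val_allowed z w hc
      congr 1
      rw [sec, L1.lift_delta]
      exact phi_sgen z _ h1 h2
  exact congrArg (fun T : L1 W →L[ℂ] L1 (ℕ × ℕ) => T x) this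

/-- The section, with values in the Banach algebra. -/
def secP (z : ℕ → Bool) : L1 (ℕ × ℕ) →L[ℂ] EllOneS W where
  toFun := sec z
  map_add' := fun a b => (sec z).map_add a b
  map_smul' := fun c a => (sec z).map_smul c a
  cont := (sec z).continuous

lemma norm_secP_le (z : ℕ → Bool) (x : L1 (ℕ × ℕ)) : ‖secP z x‖ ≤ ‖x‖ := norm_sec_le z x

lemma phiP_secP_phiP (z : ℕ → Bool) (x : EllOneS W) :
    phiP z (secP z (phiP z x)) = phiP z x := phi_sec_phi z x

open Classical in
lemma phiP_secP_delta (z : ℕ → Bool) (x : ℕ × ℕ) (h1 : Al z x.1) (h2 : Al z x.2) :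
    phiP z (secP z (L1.delta x)) = L1.delta x := by
  show phi z (sec z (L1.delta x)) = L1.delta x
  rw [sec, L1.lift_delta]
  exact phi_sgen z x h1 h2

lemma infDist_KS (z : ℕ → Bool) (x : EllOneS W) :
    Metric.infDist x (KS z : Set (EllOneS W)) = ‖phiP z x‖ := by
  apply le_antisymm
  · have hk : x - secP z (phiP z x) ∈ KS z := by
      rw [mem_KS, map_sub, phiP_secP_phiP, sub_self]
    refine (Metric.infDist_le_dist_of_mem hk).trans ?_
    rw [dist_eq_norm, sub_sub_cancel]
    exact norm_secP_le z _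
  · apply (Metric.le_infDist ⟨0, (KS z).zero_mem⟩).2
    intro k hk
    rw [dist_eq_norm]
    have h1 : phiP z x = phiP z (x - k) := by
      rw [map_sub, show phiP z k = 0 from hk, sub_zero]
    rw [h1]
    exact norm_phiP_le z _

/-! ### Continuity -/

lemma continuous_NN (p : ℕ) : Continuous (fun z : ℕ → Bool => NN z p) := by
  have h1 : (fun z : ℕ → Bool => NN z p) =
      fun z => ∑ q ∈ Finset.range p, (if z q = true then 1 else 0) := by
    funext z
    simp only [NN, Finset.card_filter]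
  rw [h1]
  refine continuous_finsetSum _ fun q _ => ?_
  exact (continuous_of_discreteTopology (f := fun b : Bool => if b = true then 1 else 0)).comp
    (continuous_apply q)

lemma val_ij (z z' : ℕ → Bool) (w : W) : (val z w).i = (val z' w).i ∧ (val z w).j = (val z' w).j := by
  induction w using FreeSemigroup.recOnMul with
  | ih1 n =>
    rw [val_of, val_of]
    exact ⟨rfl, rfl⟩
  | ih2 x y hx hy =>
    rw [map_mul, map_mul, mul_i, mul_i, mul_j, mul_j]
    exact ⟨hx.1, hy.2⟩

lemma continuous_val (w : W) : Continuous (fun z : ℕ → Bool => (val z w).c) := by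
  induction w using FreeSemigroup.recOnMul with
  | ih1 n =>
    simp only [val_of, gen]
    exact (continuous_of_discreteTopology (f := fun m : ℕ =>
      (if max n.unpair.1.unpair.1 n.unpair.1.unpair.2 ≤ m then (1 : ℝ) else 0))).comp
        (continuous_NN n.unpair.2)
  | ih2 x y hx hy =>
    have h1 : (fun z : ℕ → Bool => (val z (FreeSemigroup.of x * y)).c) = fun z =>
        (val z (FreeSemigroup.of x)).c * (val z y).c *
          gr (val (fun _ => false) (FreeSemigroup.of x)).j (val (fun _ => false) y).i := by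
      funext z
      rw [map_mul, mul_c, (val_ij z (fun _ => false) (FreeSemigroup.of x)).2,
        (val_ij z (fun _ => false) y).1]
    rw [h1]
    exact (hx.mul hy).mul continuous_const

lemma continuous_emb (w : W) : Continuous (fun z : ℕ → Bool => emb (val z w)) := by
  have h1 : (fun z : ℕ → Bool => emb (val z w)) = fun z => ((val z w).c : ℂ) •
      L1.delta ((val (fun _ => false) w).i, (val (fun _ => false) w).j) := by
    funext z
    rw [emb, (val_ij z (fun _ => false) w).1, (val_ij z (fun _ => false) w).2]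
  rw [h1]
  exact (Complex.continuous_ofReal.comp (continuous_val w)).smul continuous_const

lemma continuous_phi (x : L1 W) : Continuous (fun z : ℕ → Bool => phi z x) := by
  have h1 : (fun z : ℕ → Bool => phi z x) = fun z => ∑' w, x w • emb (val z w) := by
    funext z
    rfl
  rw [h1]
  refine continuous_tsum (fun w => (continuous_emb w).const_smul (x w)) x.summable_norm ?_
  intro w z
  rw [norm_smul, norm_emb]
  exact mul_le_of_le_one_right (norm_nonneg _) (abs_val z w)

theorem continuous_KK : Continuous KK := by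
  refine continuous_iInf_rng.2 fun x => continuous_induced_rng.2 ?_
  have h1 : (fun z => Metric.infDist x ((KK z).1 : Set (EllOneS W))) = fun z => ‖phi z x‖ := by
    funext z
    exact infDist_KS z x
  show Continuous (fun z => Metric.infDist x ((KK z).1 : Set (EllOneS W)))
  rw [h1]
  exact (continuous_phi x).norm

end

end Q214.SA
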