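import Pool.Agent.Q214.SA.Map

/-!
# Simplicity of the quotients
-/

open H937R3 Set Filter Topology
open scoped ENNReal

namespace Q214.SA

noncomputable section

open Classical in
/-- Every element is the sum of its coordinates. -/
lemma hasSum_delta (b : L1 (ℕ × ℕ)) : b = ∑' p, b p • (L1.delta p : L1 (ℕ × ℕ)) := by
  have h1 : L1.lift (fun p : ℕ × ℕ => (L1.delta p : L1 (ℕ × ℕ))) 1
      (fun p => (L1.norm_delta p).le) = ContinuousLinearMap.id ℂ (L1 (ℕ × ℕ)) := by
    refine L1.clm_ext fun p => ?_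
    rw [L1.lift_delta]
    rfl
  have h2 := congrArg (fun T : L1 (ℕ × ℕ) →L[ℂ] L1 (ℕ × ℕ) => T b) h1
  exact h2.symm

/-- The functional `b ↦ (G b G)_{jm}`. -/
def beta (j m : ℕ) : L1 (ℕ × ℕ) →L[ℂ] ℂ :=
  L1.lift (fun kl : ℕ × ℕ => ((gr j kl.1 * gr kl.2 m : ℝ) : ℂ)) 1 (by
    intro kl
    rw [Complex.norm_real, Real.norm_eq_abs, abs_mul]
    have h1 := abs_gr j kl.1
    have h2 := abs_gr kl.2 m
    have h3 := abs_nonneg (gr j kl.1)
    have h4 := abs_nonneg (gr kl.2 m)
    calc |gr j kl.1| * |gr kl.2 m| ≤ 1 * 1 := by gcongr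
      _ = 1 := by norm_num)

open Classical in
lemma sandwich (i j m n : ℕ) (b : L1 (ℕ × ℕ)) :
    cB (cB (L1.delta (i, j)) b) (L1.delta (m, n)) = beta j m b • L1.delta (i, n) := by
  let A : L1 (ℕ × ℕ) →L[ℂ] L1 (ℕ × ℕ) :=
    (cB.flip (L1.delta (m, n))).comp (cB (L1.delta (i, j)))
  let B : L1 (ℕ × ℕ) →L[ℂ] L1 (ℕ × ℕ) := (beta j m).smulRight (L1.delta (i, n))
  have hA : ∀ b, A b = cB (cB (L1.delta (i, j)) b) (L1.delta (m, n)) := fun _ => rfl
  have hB : ∀ b, B b = beta j m b • L1.delta (i, n) := fun _ => rfl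
  have : A = B := by
    refine L1.clm_ext fun p => ?_
    rw [hA, hB, cB_delta, mB, map_smul, _root_.smul_apply, cB_delta, mB, smul_smul, beta,
      L1.lift_delta, Complex.ofReal_mul]
  rw [← hA, ← hB, this]

lemma beta_eq (j m : ℕ) (b : L1 (ℕ × ℕ)) (h1 : ∀ l, b (j + 1, l) = 0)
    (h2 : ∀ l < m, b (j, l) = 0) : beta j m b = b (j, m) * (1 / 4 : ℝ) := by
  have h3 : beta j m b = ∑' kl : ℕ × ℕ, b kl • ((gr j kl.1 * gr kl.2 m : ℝ) : ℂ) := rfl
  rw [h3, tsum_eq_single (j, m)]
  · simp [gr]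
    norm_num
  · rintro ⟨k, l⟩ hne
    simp only [smul_eq_mul]
    by_cases hk : k = j
    · subst hk
      by_cases hl : l + 1 = m
      · rw [h2 l (by omega), zero_mul]
      · have : gr l m = 0 := by
          have hlm : l ≠ m := fun h => hne (by rw [h])
          unfold gr
          rw [if_neg hlm, if_neg (fun h => hl h.symm)]
        rw [this]
        simp
    · by_cases hk2 : k = j + 1
      · rw [hk2, h1 l, zero_mul]
      · have : gr j k = 0 := by
          unfold gr
          rw [if_neg (fun h => hk h.symm), if_neg hk2]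
        rw [this]
        simp

/-- The coordinates of the elements of the range which are not allowed vanish. -/
lemma coord_allowed (z : ℕ → Bool) (x : EllOneS W) (p : ℕ × ℕ) (h : phiP z x p ≠ 0) :
    Al z p.1 ∧ Al z p.2 := by
  classical
  by_contra hne
  apply h
  let ev : L1 (ℕ × ℕ) →L[ℂ] ℂ := lp.evalCLM ℂ (fun _ : ℕ × ℕ => ℂ) (p := 1) p
  have : ev.comp (phi z) = 0 := by
    refine L1.clm_ext fun w => ?_
    show (phi z (L1.delta w)) p = 0
    rw [phi_delta, emb]
    show ((val z w).c : ℂ) * (L1.delta ((val z w).i, (val z w).j) : L1 (ℕ × ℕ)) p = 0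
    rw [L1.delta_apply]
    by_cases hp : p = ((val z w).i, (val z w).j)
    · by_cases hc : (val z w).c = 0
      · rw [hc]
        simp
      · exact absurd (by rw [hp]; exact val_allowed z w hc) hne
    · rw [if_neg hp, mul_zero]
  exact congrArg (fun T : L1 W →L[ℂ] ℂ => T x) this

open Classical in
/-- If the number of ones is finite, the quotient is simple. -/
theorem simple_of_bounded (z : ℕ → Bool) (M : ℕ) (hM : ∀ p, NN z p ≤ M) :
    QuotientSimple (KS z) := by
  intro x hx J hJ hKJ hxJ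
  have hx0 : phiP z x ≠ 0 := hx
  set b := phiP z x with hb
  have hAl : ∀ i, Al z i → i ≤ M := fun i ⟨p, hp⟩ => hp.trans (hM p)
  -- the last nonzero row and the first nonzero entry in it
  let Q : ℕ → Prop := fun i => ∃ l, b (i, l) ≠ 0
  have hQ : ∃ i, Q i := by
    by_contra hcon
    apply hx0
    rw [hasSum_delta b]
    have : ∀ p : ℕ × ℕ, b p • (L1.delta p : L1 (ℕ × ℕ)) = 0 := by
      intro p
      have : b p = 0 := by
        by_contra hp
        exact hcon ⟨p.1, p.2, hp⟩
      rw [this, zero_smul]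
    simp [this]
  have hQM : ∀ i, Q i → i ≤ M := by
    rintro i ⟨l, hl⟩
    exact hAl i (coord_allowed z x (i, l) hl).1
  obtain ⟨i₁, hi₁⟩ := hQ
  let i₀ := Nat.findGreatest Q M
  have hi₀ : Q i₀ := Nat.findGreatest_spec (hQM i₁ hi₁) hi₁
  have hrow : ∀ l, b (i₀ + 1, l) = 0 := by
    intro l
    by_contra hne
    have h1 : Q (i₀ + 1) := ⟨l, hne⟩
    exact Nat.findGreatest_is_greatest (Nat.lt_succ_self _) (hQM _ h1) h1
  let l₀ := Nat.find hi₀
  have hl₀ : b (i₀, l₀) ≠ 0 := Nat.find_spec hi₀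
  have hmin : ∀ l < l₀, b (i₀, l) = 0 := fun l hl => not_not.1 (Nat.find_min hi₀ hl)
  have hbeta : beta i₀ l₀ b ≠ 0 := by
    rw [beta_eq i₀ l₀ b hrow hmin]
    refine mul_ne_zero hl₀ ?_
    norm_num
  obtain ⟨hAi, hAl₀⟩ := coord_allowed z x (i₀, l₀) hl₀
  -- all matrix units are in the image of `J`
  have hunit : ∀ i n, Al z i → Al z n → ∃ y ∈ J, phiP z y = L1.delta (i, n) := by
    intro i n hi hn
    refine ⟨(beta i₀ l₀ b)⁻¹ • (secP z (L1.delta (i, i₀)) * x * secP z (L1.delta (l₀, n))), ?_, ?_⟩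
    · exact J.smul_mem _ (hJ _ _ (hJ _ _ hxJ).1).2
    · rw [map_smul, phiP_mul, phiP_mul, phiP_secP_delta z (i, i₀) hi hAi,
        phiP_secP_delta z (l₀, n) hAl₀ hn, ← hb, sandwich, smul_smul, inv_mul_cancel₀ hbeta,
        one_smul]
  have htop : ∀ y : EllOneS W, y ∈ J := by
    intro y
    have h1 : ∃ y' ∈ J, phiP z y' = phiP z y := by
      have h2 : phiP z y = ∑ p ∈ Finset.range (M + 1) ×ˢ Finset.range (M + 1),
          phiP z y p • (L1.delta p : L1 (ℕ × ℕ)) := by
        conv_lhs => rw [hasSum_delta (phiP z y)]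
        apply tsum_eq_sum
        intro p hp
        have : phiP z y p = 0 := by
          by_contra hne
          obtain ⟨h3, h4⟩ := coord_allowed z y p hne
          apply hp
          rw [Finset.mem_product, Finset.mem_range, Finset.mem_range]
          exact ⟨Nat.lt_succ_of_le (hAl _ h3), Nat.lt_succ_of_le (hAl _ h4)⟩
        rw [this, zero_smul]
      have h3 : ∀ p : ℕ × ℕ, ∃ y' ∈ J, phiP z y' = phiP z y p • (L1.delta p : L1 (ℕ × ℕ)) := by
        intro p
        by_cases hp : phiP z y p = 0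
        · exact ⟨0, J.zero_mem, by rw [hp, zero_smul, map_zero]⟩
        · obtain ⟨h4, h5⟩ := coord_allowed z y p hp
          obtain ⟨y', hy', hy'2⟩ := hunit p.1 p.2 h4 h5
          exact ⟨phiP z y p • y', J.smul_mem _ hy', by rw [map_smul, hy'2]⟩
      choose f hf1 hf2 using h3
      refine ⟨∑ p ∈ Finset.range (M + 1) ×ˢ Finset.range (M + 1), f p,
        J.sum_mem fun p _ => hf1 p, ?_⟩
      rw [map_sum]
      refine Eq.trans ?_ h2.symm
      exact Finset.sum_congr rfl fun p _ => hf2 p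
    obtain ⟨y', hy', h2⟩ := h1
    have h3 : y - y' ∈ J := hKJ (by rw [mem_KS, map_sub, h2, sub_self])
    have h4 : y = (y - y') + y' := by abel
    rw [h4]
    exact J.add_mem h3 hy'
  rw [show (J : Set (EllOneS W)) = Set.univ from eq_univ_of_forall htop]
  exact dense_univ

/-- The annihilated vector. -/
def bvec : L1 (ℕ × ℕ) := by
  classical
  exact ∑' k : ℕ, ((1 / 2 : ℂ) ^ k) • L1.delta (k, 0)

open Classical in
lemma summable_bvec : Summable (fun k : ℕ => ((1 / 2 : ℂ) ^ k) • (L1.delta (k, 0) : L1 (ℕ × ℕ))) := by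
  apply Summable.of_norm
  have : (fun k : ℕ => ‖((1 / 2 : ℂ) ^ k) • (L1.delta (k, 0) : L1 (ℕ × ℕ))‖) =
      fun k => (1 / 2 : ℝ) ^ k := by
    funext k
    rw [norm_smul, L1.norm_delta, mul_one, norm_pow]
    norm_num
  rw [this]
  exact summable_geometric_of_lt_one (by norm_num) (by norm_num)

open Classical in
lemma cB_bvec (a : L1 (ℕ × ℕ)) : cB a bvec = 0 := by
  have : cB.flip bvec = 0 := by
    refine L1.clm_ext fun p => ?_
    show cB (L1.delta p) bvec = 0
    have h1 : cB (L1.delta p) bvec =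
        ∑' k : ℕ, cB (L1.delta p) (((1 / 2 : ℂ) ^ k) • (L1.delta (k, 0) : L1 (ℕ × ℕ))) :=
      (cB (L1.delta p)).map_tsum summable_bvec
    rw [h1]
    have h2 : ∀ k : ℕ, cB (L1.delta p) (((1 / 2 : ℂ) ^ k) • (L1.delta (k, 0) : L1 (ℕ × ℕ))) =
        (((1 / 2 : ℂ) ^ k) * (gr p.2 k : ℂ)) • L1.delta (p.1, 0) := by
      intro k
      rw [map_smul, cB_delta, mB, smul_smul]
    simp_rw [h2]
    rw [tsum_eq_sum (s := {p.2, p.2 + 1})]
    · rw [Finset.sum_pair (by omega), ← add_smul]
      have h3 : gr p.2 p.2 = 1 / 2 := by simp [gr]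
      have h4 : gr p.2 (p.2 + 1) = -1 := by simp [gr]
      rw [h3, h4]
      have h5 : ((1 / 2 : ℂ) ^ p.2) * ((1 / 2 : ℝ) : ℂ) +
          ((1 / 2 : ℂ) ^ (p.2 + 1)) * ((-1 : ℝ) : ℂ) = 0 := by
        push_cast
        ring
      rw [h5, zero_smul]
    · intro k hk
      simp only [Finset.mem_insert, Finset.mem_singleton, not_or] at hk
      have : gr p.2 k = 0 := by
        unfold gr
        rw [if_neg (fun h => hk.1 h.symm), if_neg hk.2]
      rw [this]
      simp
  exact congrArg (fun T : L1 (ℕ × ℕ) →L[ℂ] L1 (ℕ × ℕ) => T a) this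

open Classical in
lemma bvec_ne_zero : bvec ≠ 0 := by
  intro h
  let ev : L1 (ℕ × ℕ) →L[ℂ] ℂ := lp.evalCLM ℂ (fun _ : ℕ × ℕ => ℂ) (p := 1) (0, 0)
  have h1 : ev bvec = ∑' k : ℕ, ev (((1 / 2 : ℂ) ^ k) • (L1.delta (k, 0) : L1 (ℕ × ℕ))) :=
    ev.map_tsum summable_bvec
  rw [h, map_zero, tsum_eq_single 0] at h1
  · have h2 : ev (((1 / 2 : ℂ) ^ 0) • (L1.delta (0, 0) : L1 (ℕ × ℕ))) = 1 := by
      rw [pow_zero, one_smul]
      show (L1.delta (0, 0) : L1 (ℕ × ℕ)) (0, 0) = 1
      rw [L1.delta_apply, if_pos rfl]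
    rw [h2] at h1
    exact zero_ne_one h1
  · intro k hk
    rw [map_smul]
    show ((1 / 2 : ℂ) ^ k) • (L1.delta (k, 0) : L1 (ℕ × ℕ)) (0, 0) = 0
    rw [L1.delta_apply, if_neg, smul_zero]
    intro h'
    exact hk (congrArg Prod.fst h').symm

open Classical in
/-- If the number of ones is infinite, the quotient is not simple. -/
theorem not_simple_of_unbounded (z : ℕ → Bool) (hz : ∀ M, ∃ p, M ≤ NN z p) :
    ¬ QuotientSimple (KS z) := by
  intro hS
  have hAl : ∀ i, Al z i := hz
  have hsurj : ∀ b : L1 (ℕ × ℕ), phiP z (secP z b) = b := by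
    intro b
    have : (phi z).comp (sec z) = ContinuousLinearMap.id ℂ (L1 (ℕ × ℕ)) := by
      refine L1.clm_ext fun p => ?_
      exact phiP_secP_delta z p (hAl _) (hAl _)
    exact congrArg (fun T : L1 (ℕ × ℕ) →L[ℂ] L1 (ℕ × ℕ) => T b) this
  -- the right annihilator modulo the ideal
  let J : Submodule ℂ (EllOneS W) :=
    { carrier := {x | ∀ y : EllOneS W, y * x ∈ KS z}
      add_mem' := by
        intro a b ha hb y
        rw [mul_add]
        exact (KS z).add_mem (ha y) (hb y)
      zero_mem' := by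
        intro y
        rw [mul_zero]
        exact (KS z).zero_mem
      smul_mem' := by
        intro c x hx y
        rw [mul_smul_comm]
        exact (KS z).smul_mem c (hx y) }
  have hJmem : ∀ x, x ∈ J ↔ ∀ y : EllOneS W, y * x ∈ KS z := fun _ => Iff.rfl
  have hJ : IsIdeal J := by
    intro a x hx
    rw [hJmem] at hx
    constructor
    · rw [hJmem]
      intro y
      rw [← mul_assoc]
      exact hx _
    · rw [hJmem]
      intro y
      rw [← mul_assoc]
      exact (isIdeal_KS z a _ (hx y)).2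
  have hKJ : KS z ≤ J := by
    intro x hx
    rw [hJmem]
    intro y
    exact (isIdeal_KS z y x hx).1
  have hclosed : IsClosed (J : Set (EllOneS W)) := by
    have : (J : Set (EllOneS W)) = ⋂ y : EllOneS W, {x | y * x ∈ KS z} := by
      ext x
      simp only [SetLike.mem_coe, hJmem, mem_iInter, mem_ofPred_eq]
    rw [this]
    refine isClosed_iInter fun y => ?_
    exact (isClosed_KS z).preimage (continuous_const_mul y)
  have hx : secP z bvec ∉ KS z := by
    rw [mem_KS, hsurj]
    exact bvec_ne_zero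
  have hxJ : secP z bvec ∈ J := by
    rw [hJmem]
    intro y
    rw [mem_KS, phiP_mul, hsurj]
    exact cB_bvec _
  have hd := hS _ hx J hJ hKJ hxJ
  have hall : (J : Set (EllOneS W)) = Set.univ := by
    rw [← hclosed.closure_eq]
    exact hd.closure_eq
  have h1 : secP z (L1.delta (0, 0)) ∈ J := by
    have : secP z (L1.delta (0, 0)) ∈ (J : Set (EllOneS W)) := by
      rw [hall]
      exact mem_univ _
    exact this
  rw [hJmem] at h1
  have h2 := h1 (secP z (L1.delta (0, 0)))
  rw [mem_KS, phiP_mul, hsurj, cB_delta, mB] at h2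
  have h3 : ((gr 0 0 : ℝ) : ℂ) ≠ 0 := by
    simp [gr]
  have h4 : (L1.delta (0, 0) : L1 (ℕ × ℕ)) = 0 := by
    rcases smul_eq_zero.1 h2 with h | h
    · exact absurd h h3
    · exact h
  have h5 := L1.norm_delta (G := ℕ × ℕ) (0, 0)
  rw [h4, norm_zero] at h5
  exact zero_ne_one h5

/-- The complementation of the Cantor space. -/
def compl : (ℕ → Bool) ≃ₜ (ℕ → Bool) where
  toFun := fun z n => !(z n)
  invFun := fun z n => !(z n)
  left_inv := fun z => by funext n; simp
  right_inv := fun z => by funext n; simp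
  continuous_toFun := continuous_pi fun n =>
    (continuous_of_discreteTopology (f := fun b : Bool => !b)).comp (continuous_apply n)
  continuous_invFun := continuous_pi fun n =>
    (continuous_of_discreteTopology (f := fun b : Bool => !b)).comp (continuous_apply n)

lemma compl_apply (z : ℕ → Bool) (n : ℕ) : compl z n = !(z n) := rfl

lemma NN_add (z : ℕ → Bool) (p : ℕ) : NN z p + NN (compl z) p = p := by
  unfold NN
  have h4 : (Finset.range p).filter (fun q => compl z q = true) =
      (Finset.range p).filter (fun q => ¬ z q = true) := by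
    apply Finset.filter_congr
    intro q _
    rw [compl_apply]
    cases z q <;> simp
  rw [h4, Finset.card_filter_add_card_filter_not, Finset.card_range]

/-- The set of the sequences with finitely many ones is not a `G_δ` set. -/
lemma no_gδ (F : Set (ℕ → Bool)) (hF : IsGδ F) (hFiff : ∀ z, z ∈ F ↔ ∃ M, ∀ p, NN z p ≤ M) :
    False := by
  have hdense : Dense F := by
    rw [dense_iff_inter_open]
    intro U hU ⟨x, hx⟩
    rw [isOpen_pi_iff] at hU
    obtain ⟨I, u, hu, hsub⟩ := hU x hx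
    let y : ℕ → Bool := fun n => if n ∈ I then x n else false
    refine ⟨y, hsub ?_, ?_⟩
    · intro i hi
      have : y i = x i := if_pos hi
      rw [this]
      exact (hu i hi).2
    · rw [hFiff]
      refine ⟨I.card, fun p => ?_⟩
      apply Finset.card_le_card
      intro n hn
      rw [Finset.mem_filter] at hn
      by_contra hnI
      have : y n = false := if_neg hnI
      rw [this] at hn
      exact Bool.noConfusion hn.2
  have hF' : IsGδ (compl ⁻¹' F) := hF.preimage compl.continuous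
  have hdense' : Dense (compl ⁻¹' F) := hdense.preimage compl.isOpenMap
  have hinter : Dense (F ∩ compl ⁻¹' F) := hdense.inter_of_Gδ hF hF' hdense'
  obtain ⟨z, hz1, hz2⟩ := hinter.nonempty
  obtain ⟨M, hM⟩ := (hFiff z).1 hz1
  obtain ⟨M', hM'⟩ := (hFiff _).1 hz2
  have h1 := hM (M + M' + 1)
  have h2 := hM' (M + M' + 1)
  have h3 := NN_add z (M + M' + 1)
  omega

/-- The set of the simple quotients is not a `G_δ` set. -/
theorem not_isGδ : ¬ IsGδ (Simple (EllOneS W)) := by
  intro hG
  apply no_gδ (KK ⁻¹' (Simple (EllOneS W))) (hG.preimage continuous_KK)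
  intro z
  constructor
  · intro h
    by_contra hcon
    push Not at hcon
    exact not_simple_of_unbounded z (fun M => by
      obtain ⟨p, hp⟩ := hcon M
      exact ⟨p, hp.le⟩) h
  · rintro ⟨M, hM⟩
    exact simple_of_bounded z M hM

end

end Q214.SA
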